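import Pool.Agent.V11307.RI.SuperCat

set_option autoImplicit false

/-!
# Integrality of `∑_{k<n} (5k+1) C(2k,k)^2 C(3k,k) (-192)^(n-1-k) / (n (2n+1) C(2n,n))`
-/

namespace Pool.Agent.Results.MP_6a8d80_nt.Full

open Finset Nat

/-- the sum `∑_{k=0}^{n-1} (5k+1) C(2k,k)^2 C(3k,k) (-192)^{n-1-k}` -/
def S (n : ℕ) : ℤ :=
  ∑ k ∈ range n, (5 * (k : ℤ) + 1) * ((2 * k).choose k : ℤ) ^ 2 * ((3 * k).choose k : ℤ) * (-192) ^ (n - 1 - k)

/-- `a_n` -/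
def a (n : ℕ) : ℚ := 1 / ((n : ℚ) * (2 * n + 1) * ((2 * n).choose n : ℚ)) * (S n : ℚ)

open V11307.RI

theorem S_succ (n : ℕ) : S (n + 1) = -192 * S n + (5 * (n : ℤ) + 1) * c3 n := by
  rw [S, sum_range_succ, S, mul_sum]
  congr 1
  · refine sum_congr rfl fun k hk => ?_
    rw [mem_range] at hk
    have : n + 1 - 1 - k = (n - 1 - k) + 1 := by omega
    rw [this, pow_succ]
    ring
  · unfold c3
    simp
    ring

/-! ### the WZ identity -/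

def g (j k : ℕ) : ℚ :=
  (-3) ^ j * ((4 * j + 2 * k + 2)! : ℚ) * ((2 * k)! : ℚ) * ((3 * (j + k) + 2)! : ℚ) /
    (2 * ((j + k)! : ℚ) ^ 2 * ((2 * j + k + 1)! : ℚ) * (k ! : ℚ) ^ 2 * ((3 * j + 2 * k + 2)! : ℚ))

def f (j k : ℕ) : ℚ :=
  (10 * ((j : ℚ) + k) ^ 2 + 2 * ((j : ℚ) + k) * j + 7 * ((j : ℚ) + k) + 1) *
    (-3) ^ j * ((3 * (j + k))! : ℚ) * ((2 * k)! : ℚ) * ((4 * j + 2 * k)! : ℚ) /
    ((k ! : ℚ) ^ 2 * ((2 * j + k)! : ℚ) * ((j + k)! : ℚ) ^ 2 * ((3 * j + 2 * k + 1)! : ℚ))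

theorem wz (j k : ℕ) : g j (k + 1) - (-192) * g j k = f j (k + 1) - f (j + 1) k := by
  have e2 : ((3 * (j + (k + 1)) + 2)! : ℚ) = (3 * j + 3 * k + 5) * ((3 * j + 3 * k + 4) * ((3 * j + 3 * k + 3) *
      ((3 * (j + k) + 2)! : ℚ))) := by
    rw [show 3 * (j + (k + 1)) + 2 = 3 * (j + k) + 2 + 1 + 1 + 1 by ring, Nat.factorial_succ, Nat.factorial_succ,
      Nat.factorial_succ]
    push_cast; ring
  have e2b : ((3 * (j + (k + 1)))! : ℚ) = (3 * j + 3 * k + 3) * ((3 * (j + k) + 2)! : ℚ) := by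
    rw [show 3 * (j + (k + 1)) = 3 * (j + k) + 2 + 1 by ring, Nat.factorial_succ]
    push_cast; ring
  have e2c : ((3 * (j + 1 + k))! : ℚ) = (3 * j + 3 * k + 3) * ((3 * (j + k) + 2)! : ℚ) := by
    rw [show 3 * (j + 1 + k) = 3 * (j + k) + 2 + 1 by ring, Nat.factorial_succ]
    push_cast; ring
  have e3 : ((4 * j + 2 * (k + 1) + 2)! : ℚ) = (4 * j + 2 * k + 4) * ((4 * j + 2 * k + 3) *
      ((4 * j + 2 * k + 2)! : ℚ)) := by
    rw [show 4 * j + 2 * (k + 1) + 2 = 4 * j + 2 * k + 2 + 1 + 1 by ring, Nat.factorial_succ, Nat.factorial_succ]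
    push_cast; ring
  have e3b : ((4 * j + 2 * (k + 1))! : ℚ) = ((4 * j + 2 * k + 2)! : ℚ) := by
    rw [show 4 * j + 2 * (k + 1) = 4 * j + 2 * k + 2 by ring]
  have e3c : ((4 * (j + 1) + 2 * k)! : ℚ) = (4 * j + 2 * k + 4) * ((4 * j + 2 * k + 3) *
      ((4 * j + 2 * k + 2)! : ℚ)) := by
    rw [show 4 * (j + 1) + 2 * k = 4 * j + 2 * k + 2 + 1 + 1 by ring, Nat.factorial_succ, Nat.factorial_succ]
    push_cast; ring
  have e4 : ((2 * (k + 1))! : ℚ) = (2 * k + 2) * ((2 * k + 1) * ((2 * k)! : ℚ)) := by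
    rw [show 2 * (k + 1) = 2 * k + 1 + 1 by ring, Nat.factorial_succ, Nat.factorial_succ]; push_cast; ring
  have e5 : ((k + 1)! : ℚ) = (k + 1) * (k ! : ℚ) := by
    rw [Nat.factorial_succ]; push_cast; ring
  have e6 : ((j + (k + 1))! : ℚ) = (j + k + 1) * ((j + k)! : ℚ) := by
    rw [show j + (k + 1) = j + k + 1 by ring, Nat.factorial_succ]; push_cast; ring
  have e7 : ((j + 1 + k)! : ℚ) = (j + k + 1) * ((j + k)! : ℚ) := by
    rw [show j + 1 + k = j + k + 1 by ring, Nat.factorial_succ]; push_cast; ring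
  have e8 : ((3 * j + 2 * (k + 1) + 2)! : ℚ) = (3 * j + 2 * k + 4) * ((3 * j + 2 * k + 3) *
      ((3 * j + 2 * k + 2)! : ℚ)) := by
    rw [show 3 * j + 2 * (k + 1) + 2 = 3 * j + 2 * k + 2 + 1 + 1 by ring, Nat.factorial_succ, Nat.factorial_succ]
    push_cast; ring
  have e8b : ((3 * j + 2 * (k + 1) + 1)! : ℚ) = (3 * j + 2 * k + 3) * ((3 * j + 2 * k + 2)! : ℚ) := by
    rw [show 3 * j + 2 * (k + 1) + 1 = 3 * j + 2 * k + 2 + 1 by ring, Nat.factorial_succ]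
    push_cast; ring
  have e8c : ((3 * (j + 1) + 2 * k + 1)! : ℚ) = (3 * j + 2 * k + 4) * ((3 * j + 2 * k + 3) *
      ((3 * j + 2 * k + 2)! : ℚ)) := by
    rw [show 3 * (j + 1) + 2 * k + 1 = 3 * j + 2 * k + 2 + 1 + 1 by ring, Nat.factorial_succ, Nat.factorial_succ]
    push_cast; ring
  have e9 : ((2 * j + (k + 1) + 1)! : ℚ) = (2 * j + k + 2) * ((2 * j + k + 1)! : ℚ) := by
    rw [show 2 * j + (k + 1) + 1 = 2 * j + k + 1 + 1 by ring, Nat.factorial_succ]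
    push_cast; ring
  have e9b : ((2 * j + (k + 1))! : ℚ) = ((2 * j + k + 1)! : ℚ) := by
    rw [show 2 * j + (k + 1) = 2 * j + k + 1 by ring]
  have e9c : ((2 * (j + 1) + k)! : ℚ) = (2 * j + k + 2) * ((2 * j + k + 1)! : ℚ) := by
    rw [show 2 * (j + 1) + k = 2 * j + k + 1 + 1 by ring, Nat.factorial_succ]
    push_cast; ring
  unfold g f
  rw [e2, e2b, e2c, e3, e3b, e3c, e4, e5, e6, e7, e8, e8b, e8c, e9, e9b, e9c]
  push_cast
  have n1 : (k ! : ℚ) ≠ 0 := by exact_mod_cast k.factorial_ne_zero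
  have n2 : ((j + k)! : ℚ) ≠ 0 := by exact_mod_cast (j + k).factorial_ne_zero
  have n7 : ((3 * j + 2 * k + 2)! : ℚ) ≠ 0 := by exact_mod_cast (3 * j + 2 * k + 2).factorial_ne_zero
  have n8 : ((2 * j + k + 1)! : ℚ) ≠ 0 := by exact_mod_cast (2 * j + k + 1).factorial_ne_zero
  have n3 : ((j : ℚ) + k + 1) ≠ 0 := by positivity
  have n4 : ((k : ℚ) + 1) ≠ 0 := by positivity
  have n5 : (3 * (j : ℚ) + 2 * k + 4) ≠ 0 := by positivity
  have n6 : (3 * (j : ℚ) + 2 * k + 3) ≠ 0 := by positivity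
  have n9 : (2 * (j : ℚ) + k + 2) ≠ 0 := by positivity
  generalize ((3 * (j + k) + 2)! : ℚ) = A
  generalize ((4 * j + 2 * k + 2)! : ℚ) = A'
  generalize ((2 * k)! : ℚ) = B
  generalize (k ! : ℚ) = C at *
  generalize ((j + k)! : ℚ) = D at *
  generalize ((3 * j + 2 * k + 2)! : ℚ) = E at *
  generalize ((2 * j + k + 1)! : ℚ) = F at *
  rw [pow_succ]
  field_simp
  ring

theorem f_zero (n : ℕ) : f 0 n = (5 * (n : ℚ) + 1) * c3 n := by
  have n1 : (n ! : ℚ) ≠ 0 := by exact_mod_cast n.factorial_ne_zero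
  have n2 : ((2 * n)! : ℚ) ≠ 0 := by exact_mod_cast (2 * n).factorial_ne_zero
  have n4 : (2 * (n : ℚ) + 1) ≠ 0 := by positivity
  have e1 : ((2 * n + 1)! : ℚ) = (2 * n + 1) * ((2 * n)! : ℚ) := by
    rw [Nat.factorial_succ]; push_cast; ring
  rw [c3_eq]
  unfold f
  simp only [Nat.mul_zero, Nat.zero_add]
  rw [e1]
  push_cast
  field_simp
  ring_nf

theorem g_f {n : ℕ} (hn : 1 ≤ n) : g n 0 = f n 0 := by
  obtain ⟨m, rfl⟩ : ∃ m, n = m + 1 := ⟨n - 1, by omega⟩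
  have e1 : ((3 * (m + 1 + 0) + 2)! : ℚ) = (3 * m + 5) * ((3 * m + 4) * ((3 * (m + 1 + 0))! : ℚ)) := by
    rw [Nat.factorial_succ, Nat.factorial_succ]
    push_cast; ring
  have e2 : ((4 * (m + 1) + 2 * 0 + 2)! : ℚ) = (4 * m + 6) * ((4 * m + 5) * ((4 * (m + 1) + 2 * 0)! : ℚ)) := by
    rw [Nat.factorial_succ, Nat.factorial_succ]
    push_cast; ring
  have e3 : ((2 * (m + 1) + 0 + 1)! : ℚ) = (2 * m + 3) * ((2 * (m + 1) + 0)! : ℚ) := by
    rw [Nat.factorial_succ]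
    push_cast; ring
  unfold g f
  rw [e1, e2, e3]
  have e4' : ((3 * (m + 1) + 2 * 0 + 2)! : ℚ) = (3 * m + 5) * ((3 * m + 4) * ((3 * (m + 1 + 0))! : ℚ)) := e1
  have e5' : ((3 * (m + 1) + 2 * 0 + 1)! : ℚ) = (3 * m + 4) * ((3 * (m + 1 + 0))! : ℚ) := by
    have : (3 * (m + 1) + 2 * 0 + 1)! = (3 * (m + 1 + 0) + 1)! := rfl
    rw [this, Nat.factorial_succ]
    push_cast
    ring
  rw [e5']
  try rw [e4']
  have n2 : ((m + 1 + 0)! : ℚ) ≠ 0 := by exact_mod_cast (m + 1 + 0).factorial_ne_zero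
  have n7 : ((3 * (m + 1 + 0))! : ℚ) ≠ 0 := by exact_mod_cast (3 * (m + 1 + 0)).factorial_ne_zero
  have n8 : ((2 * (m + 1) + 0)! : ℚ) ≠ 0 := by exact_mod_cast (2 * (m + 1) + 0).factorial_ne_zero
  have n3 : (2 * (m : ℚ) + 3) ≠ 0 := by positivity
  have n4 : (3 * (m : ℚ) + 4) ≠ 0 := by positivity
  have n5 : (3 * (m : ℚ) + 5) ≠ 0 := by positivity
  push_cast
  generalize ((3 * (m + 1 + 0))! : ℚ) = A at *
  generalize ((4 * (m + 1) + 2 * 0)! : ℚ) = A' at *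
  generalize ((m + 1 + 0)! : ℚ) = D at *
  generalize ((2 * (m + 1) + 0)! : ℚ) = F at *
  field_simp
  ring

theorem S_eq (n : ℕ) : (S (n + 1) : ℚ) = ∑ j ∈ range (n + 1), g j (n - j) := by
  refine V11307.RI.closed (m := -192) (f := f) wz (fun n hn => g_f hn) (fun n => (S n : ℚ))
    (fun n => (5 * (n : ℚ) + 1) * c3 n) ?_ (fun n => by rw [S_succ]; push_cast; ring)
    (fun n _ => f_zero n) n
  norm_num [S, g, Nat.factorial]

/-- the closed form as a sum of integers -/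
def v (n : ℕ) : ℤ := ∑ j ∈ range (n + 1), (-3) ^ j * (sc (n + 1 + j) (n - j) * ((3 * n + 2).choose (n - j) : ℤ))

theorem g_eq (j k : ℕ) : 2 * g j k = (2 * (j + k : ℕ) + 1) * ((2 * (j + k)).choose (j + k) : ℚ) *
    ((-3) ^ j * ((sc (j + k + 1 + j) k : ℚ) * ((3 * (j + k) + 2).choose k : ℚ))) := by
  rw [sc_eq, Nat.cast_choose ℚ (show k ≤ 3 * (j + k) + 2 by omega), choose_q,
    show 3 * (j + k) + 2 - k = 3 * j + 2 * k + 2 by omega,
    show 2 * (j + k + 1 + j) = 4 * j + 2 * k + 2 by ring,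
    show j + k + 1 + j + k = 2 * (j + k) + 1 by ring,
    show j + k + 1 + j = 2 * j + k + 1 by ring]
  have e1 : ((2 * (j + k) + 1)! : ℚ) = (2 * (j + k) + 1) * ((2 * (j + k))! : ℚ) := by
    rw [Nat.factorial_succ]; push_cast; ring
  unfold g
  rw [e1]
  have n1 : (k ! : ℚ) ≠ 0 := by exact_mod_cast k.factorial_ne_zero
  have n2 : ((j + k)! : ℚ) ≠ 0 := by exact_mod_cast (j + k).factorial_ne_zero
  have n7 : ((2 * (j + k))! : ℚ) ≠ 0 := by exact_mod_cast (2 * (j + k)).factorial_ne_zero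
  have n10 : ((3 * j + 2 * k + 2)! : ℚ) ≠ 0 := by exact_mod_cast (3 * j + 2 * k + 2).factorial_ne_zero
  have n11 : ((2 * j + k + 1)! : ℚ) ≠ 0 := by exact_mod_cast (2 * j + k + 1).factorial_ne_zero
  have n3 : (2 * ((j : ℚ) + k) + 1) ≠ 0 := by positivity
  push_cast
  field_simp

theorem S_closed (n : ℕ) : 2 * S (n + 1) = ((2 * (n : ℤ) + 1) * ((2 * n).choose n : ℤ)) * v n := by
  have h : 2 * (S (n + 1) : ℚ) = ((2 * (n : ℚ) + 1) * ((2 * n).choose n : ℚ)) * (v n : ℚ) := by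
    rw [S_eq, v, mul_sum]
    push_cast
    rw [mul_sum]
    refine sum_congr rfl fun j hj => ?_
    rw [mem_range] at hj
    obtain ⟨k, rfl⟩ : ∃ k, n = j + k := ⟨n - j, by omega⟩
    rw [show j + k - j = k by omega, g_eq]
  exact_mod_cast h

theorem four_dvd_v {n : ℕ} (hn : 1 ≤ n) : (4 : ℤ) ∣ v n := by
  refine dvd_sum fun j hj => ?_
  rw [mem_range] at hj
  refine Dvd.dvd.mul_left (Dvd.dvd.mul_right ?_ _) _
  exact four_dvd_sc hn (by omega)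

theorem dvd_v (n : ℕ) : (2 * (n : ℤ) + 3) ∣ 3 * v n := by
  have h1 := S_succ (n + 1)
  have h2 := S_closed n
  have h3 := S_closed (n + 1)
  obtain ⟨w, hw⟩ := V11307.RI.fuss (n + 1)
  unfold c3 at h1
  rw [hw] at h1
  have hc : ((n : ℤ) + 1) * ((2 * (n + 1)).choose (n + 1) : ℤ) = 2 * (2 * n + 1) * ((2 * n).choose n : ℤ) := by
    exact_mod_cast central n
  have hpos : ((2 * (n + 1)).choose (n + 1) : ℤ) ≠ 0 := by exact_mod_cast (choose_pos' (n + 1)).ne'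
  push_cast at h1 h3
  have h4 : (2 * (n : ℤ) + 3) * v (n + 1) = -96 * (n + 1) * v n +
      (2 * n + 3) * (2 * (5 * n + 6) * (w : ℤ) * ((2 * (n + 1)).choose (n + 1) : ℤ)) := by
    apply mul_left_cancel₀ hpos
    linear_combination (-1) * h3 + 2 * h1 - 192 * h2 + 96 * v n * hc
  have h6 : (2 * (n : ℤ) + 3) ∣ (2 ^ 5 * (n + 1)) * (3 * v n) :=
    ⟨2 * (5 * n + 6) * (w : ℤ) * ((2 * (n + 1)).choose (n + 1) : ℤ) - v (n + 1), by linear_combination h4⟩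
  exact ((cop2p n 5).mul_right (cop4 n)).dvd_of_dvd_mul_left h6

theorem dvd_S {n : ℕ} (hn : 1 ≤ n) : ((2 * D n : ℕ) : ℤ) ∣ 3 ^ 1 * S (n + 1) := by
  obtain ⟨t, ht⟩ := four_dvd_v hn
  have h1 := S_closed n
  have h2 := dvd_v n
  rw [ht] at h1 h2
  have h3 : (2 * (n : ℤ) + 3) ∣ 3 * t := by
    have e : (2 * (n : ℤ) + 3) ∣ 2 ^ 2 * (3 * t) := by
      rwa [show (2 : ℤ) ^ 2 * (3 * t) = 3 * (4 * t) by ring]
    exact (cop2p n 2).dvd_of_dvd_mul_left e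
  obtain ⟨z, hz⟩ := h3
  refine ⟨z, ?_⟩
  unfold D
  push_cast
  have h5 : S (n + 1) = 2 * ((2 * (n : ℤ) + 1) * ((2 * n).choose n : ℤ)) * t := by linarith
  rw [h5]
  linear_combination 2 * (2 * (n : ℤ) + 1) * ((2 * n).choose n : ℤ) * hz

/-- **Full answer.** -/
theorem result : ∀ n : ℕ, 2 ≤ n →
    ((∀ m : ℕ, 2 * n + 1 ≠ 3 ^ m) → ∃ z : ℤ, a n = z) ∧
    (∀ m : ℕ, 2 * n + 1 = 3 ^ m → ∃ z : ℤ, 3 * a n = z ∧ ¬ 3 ∣ z) := by
  intro n hn
  obtain ⟨K, rfl⟩ : ∃ K, n = K + 1 := ⟨n - 1, by omega⟩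
  have hq : a (K + 1) * ((2 * D K : ℕ) : ℚ) = S (K + 1) := by
    have h2 := D_q' K
    have hD : (D K : ℚ) ≠ 0 := by exact_mod_cast (D_pos K).ne'
    rw [a, h2]
    push_cast
    field_simp
  obtain ⟨h1, h2⟩ := final_q good3_c3 (m := -192) (a := 5) (b := 1) (by norm_num) (by norm_num) (S := S) (by simp [S])
    S_succ (κ := 2) (by norm_num) (K := K) (e := 1) (dvd_S (by omega)) hq
  exact ⟨fun h => h1 fun t ht => h t (by omega), fun t ht => h2 t (by omega)⟩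

end Pool.Agent.Results.MP_6a8d80_nt.Full
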